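import Pool.Agent.Helper14.AY.GoalsB

/-! Local ellipticity (packet AY-ELC). -/

open Complex Metric Set Filter Topology MeasureTheory
open scoped ContDiff ComplexConjugate ComplexOrder Manifold Matrix

namespace Pool.Agent.Helper58.AY

open Pool.Agent.Helper95.Lin Pool.Agent.Helper16.Abund Pool.Agent.Helper92.Orb Pool.Agent.Helper10.SP
  Pool.Agent.Helper95.RK Pool.Agent.Helper57.HS Pool.Agent.Helper14.AY

namespace Elc

variable {n : ℕ}

/-- The Hermitian form. -/
noncomputable def q (M : Matrix (Fin n) (Fin n) ℂ) (z : Cn n) : ℝ := (star z ⬝ᵥ M.mulVec z).re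

noncomputable def nn (z : Cn n) : ℝ := ∑ i, normSq (z i)

lemma q_smul (M : Matrix (Fin n) (Fin n) ℂ) (t : ℝ) (z : Cn n) :
    q M ((t : ℂ) • z) = t ^ 2 * q M z := by
  unfold q
  rw [Matrix.mulVec_smul, dotProduct_smul, star_smul, smul_dotProduct]
  simp only [RCLike.star_def, conj_ofReal, smul_eq_mul, ← mul_assoc, ← Complex.ofReal_mul,
    Complex.re_ofReal_mul]
  ring

lemma q_one (z : Cn n) : q 1 z = nn z := by
  unfold q nn
  rw [Matrix.one_mulVec, dotProduct, Complex.re_sum]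
  refine Finset.sum_congr rfl fun i _ => ?_
  simp only [Pi.star_apply, RCLike.star_def, Complex.mul_re, Complex.conj_re, Complex.conj_im,
    normSq_apply]
  ring

lemma le_nn (z : Cn n) : ‖z‖ ^ 2 ≤ nn z := by
  have h0 : 0 ≤ nn z := Finset.sum_nonneg fun i _ => normSq_nonneg _
  have h : ‖z‖ ≤ Real.sqrt (nn z) := by
    rw [pi_norm_le_iff_of_nonneg (Real.sqrt_nonneg _)]
    intro i
    apply Real.le_sqrt_of_sq_le
    rw [Complex.sq_norm]
    exact Finset.single_le_sum (f := fun i => normSq (z i)) (fun i _ => normSq_nonneg _)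
      (Finset.mem_univ i)
  calc ‖z‖ ^ 2 ≤ Real.sqrt (nn z) ^ 2 := by gcongr
    _ = nn z := Real.sq_sqrt h0

lemma nn_le (z : Cn n) : nn z ≤ (n + 1) * ‖z‖ ^ 2 := by
  have : nn z ≤ ∑ _i : Fin n, ‖z‖ ^ 2 := by
    refine Finset.sum_le_sum fun i _ => ?_
    rw [← Complex.sq_norm]
    have := norm_le_pi_norm z i
    gcongr
  refine this.trans ?_
  simp only [Finset.sum_const, Finset.card_univ, Fintype.card_fin, nsmul_eq_mul]
  nlinarith [sq_nonneg ‖z‖]

lemma scale {M : Matrix (Fin n) (Fin n) ℂ} {c C : ℝ}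
    (h : ∀ z : Cn n, ‖z‖ = 1 → c ≤ q M z ∧ q M z ≤ C) (z : Cn n) :
    c * ‖z‖ ^ 2 ≤ q M z ∧ q M z ≤ C * ‖z‖ ^ 2 := by
  by_cases hz : z = 0
  · subst hz
    simp [q]
  · have hz' : 0 < ‖z‖ := norm_pos_iff.2 hz
    have h1 : ‖((‖z‖⁻¹ : ℝ) : ℂ) • z‖ = 1 := by
      rw [norm_smul, Complex.norm_real, norm_inv, norm_norm, inv_mul_cancel₀ hz'.ne']
    obtain ⟨h2, h3⟩ := h _ h1
    rw [q_smul] at h2 h3
    have h4 : q M z = ‖z‖ ^ 2 * ((‖z‖⁻¹) ^ 2 * q M z) := by
      field_simp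
    constructor
    · rw [h4, mul_comm c]
      gcongr
    · rw [h4, mul_comm C]
      gcongr

lemma psd {M : Matrix (Fin n) (Fin n) ℂ} (hM : M.IsHermitian) (h : ∀ z : Cn n, 0 ≤ q M z) :
    M.PosSemidef := by
  refine Matrix.PosSemidef.of_dotProduct_mulVec_nonneg hM fun z => ?_
  rw [Complex.nonneg_iff]
  exact ⟨h z, (hM.im_star_dotProduct_mulVec_self z).symm⟩

lemma smul_one_herm (t : ℝ) : ((t : ℂ) • (1 : Matrix (Fin n) (Fin n) ℂ)).IsHermitian := by
  unfold Matrix.IsHermitian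
  rw [Matrix.conjTranspose_smul, Matrix.conjTranspose_one]
  simp

lemma q_sub (M N : Matrix (Fin n) (Fin n) ℂ) (z : Cn n) : q (M - N) z = q M z - q N z := by
  unfold q
  rw [Matrix.sub_mulVec, dotProduct_sub, Complex.sub_re]

lemma q_smul_one (t : ℝ) (z : Cn n) : q ((t : ℂ) • (1 : Matrix (Fin n) (Fin n) ℂ)) z = t * nn z := by
  rw [← q_one]
  unfold q
  rw [Matrix.smul_mulVec, dotProduct_smul, smul_eq_mul, Complex.re_ofReal_mul]

end Elc

open Elc in
theorem elc : S_ELC := by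
  intro n W A hW hpd hcont x₀ hx₀
  obtain ⟨r, hr, hrW⟩ : ∃ r > 0, closedBall x₀ r ⊆ W :=
    Metric.nhds_basis_closedBall.mem_iff.1 (hW.mem_nhds hx₀)
  have hK : IsCompact (closedBall x₀ r ×ˢ sphere (0 : Cn n) 1) :=
    (isCompact_closedBall x₀ r).prod (isCompact_sphere 0 1)
  have hF : ContinuousOn (fun p : Cn n × Cn n => q (A p.1) p.2)
      (closedBall x₀ r ×ˢ sphere (0 : Cn n) 1) := by
    unfold q
    refine Complex.continuous_re.comp_continuousOn ?_
    simp only [dotProduct, Matrix.mulVec]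
    refine continuousOn_finsetSum _ fun i _ => ContinuousOn.mul ?_ ?_
    · exact (continuous_star.comp ((continuous_apply i).comp continuous_snd)).continuousOn
    · refine continuousOn_finsetSum _ fun j _ => ContinuousOn.mul ?_ ?_
      · exact (hcont i j).comp continuous_fst.continuousOn fun p hp => hrW hp.1
      · exact ((continuous_apply j).comp continuous_snd).continuousOn
  obtain ⟨c, hc, hcK⟩ := hK.exists_forall_le' hF (a := 0) (by
    rintro ⟨x, z⟩ ⟨hx, hz⟩
    have hz' : z ≠ 0 := by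
      rintro rfl
      simp at hz
    have := (hpd x (hrW hx)).dotProduct_mulVec_pos hz'
    exact (Complex.pos_iff.1 this).1)
  obtain ⟨C, hC⟩ := hK.exists_bound_of_continuousOn hF
  obtain ⟨C', hC'0, hC'⟩ : ∃ C' : ℝ, 0 < C' ∧ C ≤ C' :=
    ⟨|C| + 1, by positivity, by linarith [le_abs_self C]⟩
  obtain ⟨lam, hlam, hl1, hl2⟩ : ∃ lam : ℝ, 0 < lam ∧ lam * (n + 1) ≤ c ∧ C' ≤ lam⁻¹ := by
    refine ⟨min (c / (n + 1)) C'⁻¹, by positivity, ?_, ?_⟩
    · rw [← le_div_iff₀ (by positivity)]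
      exact min_le_left _ _
    · rw [le_inv_comm₀ hC'0 (by positivity)]
      exact min_le_right _ _
  refine ⟨r, hr, lam, hlam, hrW, fun x hx => ?_⟩
  have hq := scale (M := A x) (c := c) (C := C') fun z hz => by
    have hm : (x, z) ∈ closedBall x₀ r ×ˢ sphere (0 : Cn n) 1 := ⟨hx, by simpa using hz⟩
    exact ⟨hcK (x, z) hm, (le_abs_self _).trans ((hC (x, z) hm).trans hC')⟩
  have hH := (hpd x (hrW hx)).isHermitian
  constructor
  · refine psd (hH.sub (smul_one_herm lam)) fun z => ?_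
    rw [q_sub, q_smul_one]
    have h1 := (hq z).1
    have h2 := nn_le z
    have h3 := mul_le_mul_of_nonneg_left h2 hlam.le
    have h4 := mul_le_mul_of_nonneg_right hl1 (sq_nonneg ‖z‖)
    linarith
  · refine psd ((smul_one_herm lam⁻¹).sub hH) fun z => ?_
    rw [q_sub, q_smul_one]
    have h1 := (hq z).2
    have h2 := le_nn z
    have h3 := mul_le_mul_of_nonneg_left h2 hC'0.le
    have h5 : 0 ≤ nn z := (sq_nonneg _).trans h2
    have h4 := mul_le_mul_of_nonneg_right hl2 h5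
    linarith

end Pool.Agent.Helper58.AY
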