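import Pool.Agent.Helper14.AY.GoalsB

/-! The case of two derivatives (packet AY-HCB). -/

open Complex Metric Set Filter Topology MeasureTheory
open scoped ContDiff ComplexConjugate ComplexOrder Manifold Matrix

namespace Pool.Agent.Helper58.AY

open Pool.Agent.Helper95.Lin Pool.Agent.Helper16.Abund Pool.Agent.Helper92.Orb Pool.Agent.Helper10.SP
  Pool.Agent.Helper95.RK Pool.Agent.Helper57.HS Pool.Agent.Helper14.AY

namespace Hcb

variable {n : ℕ}

/-! ### The real basis -/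

lemma single_eq (j : Fin n) (z : ℂ) : (Pi.single j z : Cn n) =
    z.re • (rb (j, false) : Cn n) + z.im • (rb (j, true) : Cn n) := by
  funext i
  by_cases h : i = j
  · subst h
    simp only [rb, Pi.add_apply, Pi.smul_apply, Pi.single_eq_same]
    simp [Complex.re_add_im]
  · simp [rb, Pi.single_eq_of_ne h]

lemma norm_le_basis {G : Type*} [NormedAddCommGroup G] [NormedSpace ℝ G] (L : Cn n →L[ℝ] G) :
    ‖L‖ ≤ ∑ b : Fin n × Bool, ‖L (rb b)‖ := by
  refine L.opNorm_le_bound (Finset.sum_nonneg fun _ _ => norm_nonneg _) fun e => ?_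
  have h1 : L e = ∑ j, ((e j).re • L (rb (j, false)) + (e j).im • L (rb (j, true))) := by
    conv_lhs => rw [← Finset.univ_sum_single e]
    rw [map_sum]
    refine Finset.sum_congr rfl fun j _ => ?_
    rw [single_eq, map_add, map_smul, map_smul]
  rw [h1, Fintype.sum_prod_type, Finset.sum_mul]
  refine (norm_sum_le _ _).trans (Finset.sum_le_sum fun j _ => ?_)
  rw [Fintype.sum_bool]
  have h2 : |(e j).re| ≤ ‖e‖ := (Complex.abs_re_le_norm _).trans (norm_le_pi_norm e j)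
  have h3 : |(e j).im| ≤ ‖e‖ := (Complex.abs_im_le_norm _).trans (norm_le_pi_norm e j)
  refine (norm_add_le _ _).trans ?_
  rw [norm_smul, norm_smul, Real.norm_eq_abs, Real.norm_eq_abs]
  have h4 := mul_le_mul_of_nonneg_right h2 (norm_nonneg (L (rb (j, false))))
  have h5 := mul_le_mul_of_nonneg_right h3 (norm_nonneg (L (rb (j, true))))
  linarith

/-! ### Two derivatives -/

lemma cd2 {W : Set (Cn n)} (hW : IsOpen W) {f : Cn n → ℝ} (h1 : ContDiffOn ℝ 1 f W)
    (h2 : ∀ v, ContDiffOn ℝ 1 (fun x => fderiv ℝ f x v) W) : ContDiffOn ℝ 2 f W := by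
  have h3 : ContDiffOn ℝ 1 (fderiv ℝ f) W := contDiffOn_clm_apply.2 h2
  have : ContDiffOn ℝ (1 + 1) f W :=
    (contDiffOn_succ_iff_fderiv_of_isOpen hW).2 ⟨h1.differentiableOn one_ne_zero, by simp, h3⟩
  exact this

lemma D2_apply {W : Set (Cn n)} (hW : IsOpen W) {f : Cn n → ℝ} (hf : ContDiffOn ℝ 2 f W)
    {x : Cn n} (hx : x ∈ W) (u v : Cn n) :
    fderiv ℝ (fun y => fderiv ℝ f y v) x u = D2 f x u v := by
  have h1 : ContDiffOn ℝ 1 (fderiv ℝ f) W := hf.fderiv_of_isOpen hW (by norm_num)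
  have h2 : DifferentiableAt ℝ (fderiv ℝ f) x :=
    (h1.contDiffAt (hW.mem_nhds hx)).differentiableAt one_ne_zero
  have hp : HasFDerivAt (fun y => fderiv ℝ f y v) ((fderiv ℝ (fderiv ℝ f) x).flip v) x := by
    refine (h2.hasFDerivAt.clm_apply (hasFDerivAt_const v x)).congr_fderiv ?_
    ext w
    simp
  rw [hp.fderiv]
  rfl

lemma LH_fin {ι : Type} [Fintype ι] {a : ℝ} {W : Set (Cn n)} (hW : IsOpen W) (f : ι → Cn n → ℝ)
    (h : ∀ i, LH a W (f i)) : ∀ x ∈ W, ∃ U ∈ 𝓝 x, U ⊆ W ∧ ∃ K : ι → ℝ, ∀ i, HB a U (K i) (f i) := by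
  intro x hx
  choose U hU K hK using fun i => h i x hx
  refine ⟨W ∩ ⋂ i, U i, inter_mem (hW.mem_nhds hx) (Filter.iInter_mem.2 hU), inter_subset_left, K,
    fun i y hy z hz => ?_⟩
  exact hK i y (mem_iInter.1 hy.2 i) z (mem_iInter.1 hz.2 i)

theorem part1 {a : ℝ} {W : Set (Cn n)} (hW : IsOpen W) (f : Cn n → ℝ) :
    Hk a W 2 f ↔ ContDiffOn ℝ 2 f W ∧ LH a W (D2 f) := by
  constructor
  · rintro ⟨h1, h2⟩
    have hf : ContDiffOn ℝ 2 f W := cd2 hW h1 fun v => (h2 v).1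
    refine ⟨hf, fun x hx => ?_⟩
    obtain ⟨U, hU, hUW, K, hK⟩ := LH_fin (a := a) hW
      (fun p : (Fin n × Bool) × (Fin n × Bool) =>
        fun x => fderiv ℝ (fun y => fderiv ℝ f y (rb p.2)) x (rb p.1))
      (fun p => (h2 (rb p.2)).2 (rb p.1)) x hx
    refine ⟨U, hU, ∑ b, ∑ c, K (b, c), fun y hy z hz => ?_⟩
    calc ‖D2 f y - D2 f z‖ ≤ ∑ b : Fin n × Bool, ‖(D2 f y - D2 f z) (rb b)‖ := norm_le_basis _
      _ ≤ ∑ b : Fin n × Bool, ∑ c : Fin n × Bool, ‖(D2 f y - D2 f z) (rb b) (rb c)‖ :=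
          Finset.sum_le_sum fun b _ => norm_le_basis _
      _ ≤ ∑ b : Fin n × Bool, ∑ c : Fin n × Bool, K (b, c) * ‖y - z‖ ^ a := by
          refine Finset.sum_le_sum fun b _ => Finset.sum_le_sum fun c _ => ?_
          have := hK (b, c) y hy z hz
          simp only at this
          rw [D2_apply hW hf (hUW hy), D2_apply hW hf (hUW hz)] at this
          exact this
      _ = (∑ b, ∑ c, K (b, c)) * ‖y - z‖ ^ a := by
          simp only [Finset.sum_mul]
  · rintro ⟨hf, h⟩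
    refine ⟨hf.of_le (by norm_num), fun v => ⟨?_, fun u x hx => ?_⟩⟩
    · have h1 : ContDiffOn ℝ 1 (fderiv ℝ f) W := hf.fderiv_of_isOpen hW (by norm_num)
      exact h1.clm_apply contDiffOn_const
    · obtain ⟨U, hU, K, hK⟩ := h x hx
      refine ⟨W ∩ U, inter_mem (hW.mem_nhds hx) hU, K * (‖u‖ * ‖v‖), fun y hy z hz => ?_⟩
      beta_reduce
      rw [D2_apply hW hf hy.1, D2_apply hW hf hz.1]
      have h1 := hK y hy.2 z hz.2
      have h2 : D2 f y u v - D2 f z u v = (D2 f y - D2 f z) u v := rfl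
      rw [h2]
      calc ‖(D2 f y - D2 f z) u v‖ ≤ ‖(D2 f y - D2 f z) u‖ * ‖v‖ := ContinuousLinearMap.le_opNorm _ _
        _ ≤ (‖D2 f y - D2 f z‖ * ‖u‖) * ‖v‖ :=
            mul_le_mul_of_nonneg_right (ContinuousLinearMap.le_opNorm _ _) (norm_nonneg _)
        _ ≤ ((K * ‖y - z‖ ^ a) * ‖u‖) * ‖v‖ := by gcongr
        _ = _ := by ring

theorem part2 (hA : S_HCA) (hL : S_LMD) {a : ℝ} (ha : 0 < a) (ha1 : a ≤ 1) {W : Set (Cn n)}
    (hW : IsOpen W) (f : Cn n → ℝ) (k : ℕ) (h : Hk a W (k + 2) f) :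
    ContDiffOn ℝ 2 f W ∧ ∀ i j, Hk a W k fun x => LM f x i j := by
  obtain ⟨h1, h2⟩ := h
  have hf : ContDiffOn ℝ 2 f W := cd2 hW h1 fun v => (h2 v).1
  refine ⟨hf, fun i j => ?_⟩
  obtain ⟨-, -, -, hadd, -, -, hlin, hcong, -⟩ := hA a W ha ha1 hW
  have hd : ∀ u v : Cn n, Hk a W k fun x => fderiv ℝ (fun y => fderiv ℝ f y v) x u :=
    fun u v => (h2 v).2 u
  have g1 := hlin ℝ ℂ Complex.ofRealCLM _ k (hadd ℝ _ _ k (hd (Pi.single i 1) (Pi.single j 1))
    (hd (Pi.single i I) (Pi.single j I)))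
  have g2 := hlin ℝ ℂ ((ContinuousLinearMap.mul ℝ ℂ I).comp Complex.ofRealCLM) _ k
    (hd (Pi.single i 1) (Pi.single j I))
  have g3 := hlin ℝ ℂ ((ContinuousLinearMap.mul ℝ ℂ (-I)).comp Complex.ofRealCLM) _ k
    (hd (Pi.single i I) (Pi.single j 1))
  have g := hadd ℂ _ _ k g1 (hadd ℂ _ _ k g2 g3)
  refine hcong ℂ _ _ k ?_ g
  intro x hx
  obtain ⟨-, h3, -⟩ := hL f x (hf.contDiffAt (hW.mem_nhds hx))
  rw [h3 i j]
  simp only [D2_apply hW hf hx]
  simp only [ContinuousLinearMap.comp_apply, Complex.ofRealCLM_apply,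
    ContinuousLinearMap.mul_apply']
  push_cast
  ring

/-! ### Inverse matrices -/

lemma det_closed {P : (Cn n → ℂ) → Prop} (h0 : ∀ c : ℂ, P fun _ => c)
    (ha : ∀ f g, P f → P g → P fun x => f x + g x) (hm : ∀ f g, P f → P g → P fun x => f x * g x)
    {m : ℕ} (M : Cn n → Matrix (Fin m) (Fin m) ℂ) (hM : ∀ i j, P fun x => M x i j) :
    P fun x => (M x).det := by
  have hsum : ∀ {ι : Type} (s : Finset ι) (f : ι → Cn n → ℂ), (∀ i, P (f i)) →
      P fun x => ∑ i ∈ s, f i x := by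
    intro ι s f hf
    classical
    induction s using Finset.induction_on with
    | empty => simpa using h0 0
    | insert i s hi ih =>
      simp only [Finset.sum_insert hi]
      exact ha _ _ (hf i) ih
  have hprod : ∀ {ι : Type} (s : Finset ι) (f : ι → Cn n → ℂ), (∀ i, P (f i)) →
      P fun x => ∏ i ∈ s, f i x := by
    intro ι s f hf
    classical
    induction s using Finset.induction_on with
    | empty => simpa using h0 1
    | insert i s hi ih =>
      simp only [Finset.prod_insert hi]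
      exact hm _ _ (hf i) ih
  simp only [Matrix.det_apply']
  refine hsum _ _ fun σ => hm _ _ (h0 _) (hprod _ _ fun i => hM _ _)

theorem part3 (hA : S_HCA) {a : ℝ} (ha : 0 < a) (ha1 : a ≤ 1) {W : Set (Cn n)}
    (hW : IsOpen W) (Q : Cn n → Matrix (Fin n) (Fin n) ℂ) (k : ℕ) (hdet : ∀ x ∈ W, (Q x).det ≠ 0)
    (hc : ∀ i j, ContinuousOn (fun x => Q x i j) W) (hQ : ∀ i j, Hk a W k fun x => Q x i j) :
    ∀ i j, Hk a W k fun x => (Q x)⁻¹ i j := by
  obtain ⟨hsm, -, -, hadd, hmul, hinv, -, hcong, -⟩ := hA a W ha ha1 hW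
  have h0 : ∀ c : ℂ, Hk a W k fun _ : Cn n => c := fun c => hsm ℂ _ contDiffOn_const k
  have hd : Hk a W k fun x => (Q x).det := det_closed h0 (fun f g => hadd ℂ f g k)
    (fun f g => hmul f g k) Q hQ
  have hdc : ContinuousOn (fun x => (Q x).det) W := det_closed (P := fun f => ContinuousOn f W)
    (fun c => continuousOn_const) (fun f g hf hg => hf.add hg) (fun f g hf hg => hf.mul hg) Q hc
  have hdi := hinv _ k hdet hdc hd
  intro i j
  have hadj : Hk a W k fun x => (Q x).adjugate i j := by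
    simp only [Matrix.adjugate_apply]
    refine det_closed h0 (fun f g => hadd ℂ f g k) (fun f g => hmul f g k)
      (fun x => (Q x).updateRow j (Pi.single i 1)) ?_
    intro p q
    by_cases h : p = j
    · subst h
      simp only [Matrix.updateRow_self]
      exact h0 _
    · simp only [Matrix.updateRow_ne h]
      exact hQ p q
  refine hcong ℂ _ _ k ?_ (hmul _ _ k hdi hadj)
  intro x _
  rw [Matrix.inv_def, Ring.inverse_eq_inv', Matrix.smul_apply, smul_eq_mul]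

end Hcb

theorem hcb (h1 : S_HCA) (h2 : S_LMD) : S_HCB := by
  intro n a W ha ha1 hW
  exact ⟨fun f => Hcb.part1 hW f, fun f k h => Hcb.part2 h1 h2 ha ha1 hW f k h,
    fun Q k hd hc hQ => Hcb.part3 h1 ha ha1 hW Q k hd hc hQ⟩

end Pool.Agent.Helper58.AY
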